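import Pool.Agent.helper88.GR.Spec

set_option autoImplicit false

open Complex Metric Set Filter Topology MeasureTheory
open MPS (om)
open PPS (pre TT fd)
open XPS (Df er dens tau)

noncomputable section

namespace GR

/-- the property of the branch of level `m` -/
def TOW_P (n : ℕ) (c : ℂ) (p q m : ℕ) (g : ℂ → ℂ) : Prop :=
  DifferentiableOn ℂ g (ball 0 (R n c q)) ∧
    (∀ w ∈ ball (0 : ℂ) (R n c q), (fun z : ℂ => z ^ n + c)^[m] (g w) = w) ∧
    g (Z n c p) = Z n c (p - m)

/-- the next branch -/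
def TOW_Q (n : ℕ) (c : ℂ) (p q m : ℕ) (g g' : ℂ → ℂ) : Prop :=
  TOW_P n c p q (m + 1) g' ∧ ∀ w ∈ ball (0 : ℂ) (R n c q), g' w ^ n + c = g w ∧ g' w ≠ 0

theorem TOW_Zs (n : ℕ) (c : ℂ) (j : ℕ) : Z n c (j + 1) = Z n c j ^ n + c := by
  simp only [Z, Function.iterate_succ_apply']

theorem TOW_step (hLR : MPS.LR_stmt) (n : ℕ) (c : ℂ) (p q m : ℕ) (h : Ret n c p q)
    (hm : m + 1 < p) (g : ℂ → ℂ) (hg : TOW_P n c p q m g) : ∃ g', TOW_Q n c p q m g g' := by
  obtain ⟨hd, hit, hv⟩ := hg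
  have hne : ∀ w ∈ ball (0 : ℂ) (R n c q), (fun w => g w - c) w ≠ 0 := by
    intro w hw h0
    have h0' : g w = c := sub_eq_zero.1 h0
    have h1 := hit w hw
    rw [h0'] at h1
    have h2 : (fun z : ℂ => z ^ n + c)^[m] c = Z n c (m + 1) := by
      rw [Z, Function.iterate_succ_apply]
      congr 1
      have : n ≠ 0 := by have := h.hn; omega
      simp [zero_pow this]
    rw [h2] at h1
    have h3 := h.mn (m + 1) (by omega) hm
    rw [h1] at h3
    rw [mem_ball_zero_iff, R] at hw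
    linarith
  have hp : Z n c p ∈ ball (0 : ℂ) (R n c q) := by
    rw [mem_ball_zero_iff, R]; exact h.lt
  have hroot : Z n c (p - (m + 1)) ^ n = (fun w => g w - c) (Z n c p) := by
    have h1 : p - m = (p - (m + 1)) + 1 := by omega
    simp only [hv]
    rw [h1, TOW_Zs]; ring
  obtain ⟨g', hd', hv', hr'⟩ := hLR n (ball 0 (R n c q)) (fun w => g w - c) (Z n c p)
    (Z n c (p - (m + 1))) (by have := h.hn; omega) isOpen_ball (convex_ball _ _)
    (hd.sub_const c) hne hp hroot
  have hrel : ∀ w ∈ ball (0 : ℂ) (R n c q), g' w ^ n + c = g w := by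
    intro w hw
    rw [hr' w hw]; ring
  refine ⟨g', ⟨hd', ?_, hv'⟩, ?_⟩
  · intro w hw
    rw [Function.iterate_succ_apply]
    show (fun z : ℂ => z ^ n + c)^[m] (g' w ^ n + c) = w
    rw [hrel w hw]
    exact hit w hw
  · intro w hw
    refine ⟨hrel w hw, ?_⟩
    intro h0
    have h1 := hr' w hw
    rw [h0, zero_pow (by have := h.hn; omega)] at h1
    exact hne w hw h1.symm

open Classical in
/-- the tower -/
def TOW_G (n : ℕ) (c : ℂ) (p q : ℕ) : ℕ → ℂ → ℂ
  | 0 => fun w => w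
  | m + 1 => if h : ∃ g', TOW_Q n c p q m (TOW_G n c p q m) g' then Classical.choose h
      else fun w => w

theorem TOW_GP (hLR : MPS.LR_stmt) (n : ℕ) (c : ℂ) (p q : ℕ) (h : Ret n c p q) :
    ∀ m, m < p → TOW_P n c p q m (TOW_G n c p q m) := by
  intro m
  induction m with
  | zero =>
    intro _
    refine ⟨differentiableOn_id, fun w _ => rfl, rfl⟩
  | succ m ih =>
    intro hm
    have h1 := TOW_step hLR n c p q m h hm _ (ih (by omega))
    rw [TOW_G, dif_pos h1]
    exact (Classical.choose_spec h1).1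

theorem TOW (hLR : MPS.LR_stmt) : TOW_stmt := by
  intro n c p q h
  refine ⟨TOW_G n c p q, fun w => rfl, fun m hm => (TOW_GP hLR n c p q h m hm).1, ?_,
    fun m hm => (TOW_GP hLR n c p q h m hm).2.2⟩
  intro m hm w hw
  have h1 := TOW_step hLR n c p q m h hm _ (TOW_GP hLR n c p q h m (by omega))
  rw [TOW_G, dif_pos h1]
  exact (Classical.choose_spec h1).2 w hw

end GR
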